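import Mathlib

set_option autoImplicit false

namespace Pool.Agent.H.MP_d9d12d_lc

open Set Filter Topology MeasureTheory PiNat
open scoped ENNReal NNReal

abbrev X : Type := ℕ → Bool
abbrev L : Type := List Bool

theorem spread (l : ℝ) (hl : 1 / 2 ≤ l) (Inv : L → Prop) (a b : L → ℝ) (θ : ℝ) (hθ : 0 ≤ θ) (k : ℕ)
    (ha : ∀ ν, 0 ≤ a ν) (hb : ∀ ν, 0 ≤ b ν)
    (step : ∀ ν, ν.length < k → Inv ν → b ν < l ^ ν.length → Inv (false :: ν) ∧ Inv (true :: ν) ∧
      a (false :: ν) + a (true :: ν) ≤ a ν ∧ b (false :: ν) + b (true :: ν) ≤ b ν)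
    (leaf : ∀ ν, ν.length = k → Inv ν → b ν < l ^ ν.length → θ ≤ a ν) :
    ∀ d ν, ν.length + d = k → Inv ν → θ * 2 ^ d * (1 - b ν / l ^ ν.length) ≤ a ν := by
  have hl0 : 0 < l := by linarith
  intro d
  induction d with
  | zero =>
    intro ν h1 h2
    have h3 := pow_pos hl0 ν.length
    by_cases h : b ν < l ^ ν.length
    · have := leaf ν h1 h2 h
      have := mul_nonneg hθ (div_nonneg (hb ν) h3.le)
      nlinarith
    · have h4 : 1 ≤ b ν / l ^ ν.length := (one_le_div h3).2 (not_lt.1 h)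
      nlinarith [ha ν]
  | succ d ih =>
    intro ν h1 h2
    have h3 := pow_pos hl0 ν.length
    have h5 : 0 ≤ θ * 2 ^ d := by positivity
    by_cases h : b ν < l ^ ν.length
    · obtain ⟨k1, k2, k3, k4⟩ := step ν (by omega) h2 h
      have k5 := ih _ (by simp; omega) k1
      have k6 := ih _ (by simp; omega) k2
      simp only [List.length_cons] at k5 k6
      have k7 : b (false :: ν) / l ^ (ν.length + 1) + b (true :: ν) / l ^ (ν.length + 1) ≤
          2 * (b ν / l ^ ν.length) := by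
        rw [← add_div, div_le_iff₀ (pow_pos hl0 _), pow_succ]
        have : 2 * (b ν / l ^ ν.length) * (l ^ ν.length * l) = 2 * l * b ν := by field_simp
        rw [this]
        nlinarith [hb ν]
      rw [pow_succ]
      nlinarith
    · have h4 : 1 ≤ b ν / l ^ ν.length := (one_le_div h3).2 (not_lt.1 h)
      rw [pow_succ]
      nlinarith [ha ν]

def cyl (ν : L) : Set X := {x | res x ν.length = ν}
def op (T : Set L) : Set X := {x | ∃ n, res x n ∈ T}
def up (T : Set L) (ν : L) : Set L := {μ ∈ T | ν <:+ μ}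

theorem res_suf (x : X) {m n : ℕ} (h : m ≤ n) : res x m <:+ res x n := by
  induction h with
  | refl => exact List.suffix_rfl
  | step _ ih => exact ih.trans (List.suffix_cons _ _)

theorem cyl_mono {ν μ : L} (h : ν <:+ μ) : cyl μ ⊆ cyl ν := fun x hx => by
  have h1 := res_suf x h.length_le
  rw [show res x μ.length = μ from hx] at h1
  exact List.suffix_of_suffix_length_le h1 h (by simp) |>.eq_of_length (by simp)

theorem mem_cyl (x : X) (n : ℕ) : x ∈ cyl (res x n) := by simp [cyl]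

theorem cyl_ne (ν : L) : (cyl ν).Nonempty := by
  induction ν with
  | nil => exact ⟨fun _ => false, rfl⟩
  | cons b ν ih =>
    obtain ⟨x, hx⟩ := ih
    refine ⟨Function.update x ν.length b, ?_⟩
    simp only [cyl, mem_ofPred_eq, List.length_cons, res_succ, Function.update_self,
      List.cons.injEq, true_and] at hx ⊢
    rw [← hx, res_length, res_eq_res]
    exact fun m hm => Function.update_of_ne hm.ne _ _

theorem clopen_res (n : ℕ) (A : Set L) : IsOpen {x : X | res x n ∈ A} := by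
  refine isOpen_iff_forall_mem_open.2 fun x hx => ⟨cylinder x n, fun y hy => ?_,
    isOpen_cylinder _ x n, self_mem_cylinder x n⟩
  rw [cylinder_eq_res] at hy
  rwa [mem_ofPred_eq, show res y n = res x n from hy]

theorem closed_cyl (ν : L) : IsClosed (cyl ν) := ⟨clopen_res ν.length {ν}ᶜ⟩

theorem open_op (T : Set L) : IsOpen (op T) := by
  simp only [op, ofPred_exists]
  exact isOpen_iUnion fun n => clopen_res n T

instance : MeasurableSpace L := ⊤

theorem ms (T : Set L) : MeasurableSet T := MeasurableSpace.measurableSet_top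

noncomputable def W (l : ℝ≥0) : Measure L :=
  Measure.sum fun ν => ((l : ℝ≥0∞) ^ ν.length) • Measure.dirac ν

theorem W_single (l : ℝ≥0) (ν : L) : W l {ν} = (l : ℝ≥0∞) ^ ν.length := by
  classical
  rw [W, Measure.sum_apply _ (ms _), tsum_eq_single ν]
  · simp
  · intro μ hμ
    simp [Measure.dirac_apply' _ (ms {ν}), hμ]

theorem W_mem (l : ℝ≥0) {ν : L} {T : Set L} (h : ν ∈ T) : (l : ℝ≥0∞) ^ ν.length ≤ W l T :=
  W_single l ν ▸ measure_mono (singleton_subset_iff.2 h)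

theorem W_up (l : ℝ≥0) (T : Set L) (ν : L) :
    W l (up T (false :: ν)) + W l (up T (true :: ν)) ≤ W l (up T ν) := by
  rw [← measure_union _ (ms _)]
  · exact measure_mono (union_subset (fun μ h => ⟨h.1, (List.suffix_cons _ _).trans h.2⟩)
      fun μ h => ⟨h.1, (List.suffix_cons _ _).trans h.2⟩)
  · refine Set.disjoint_left.2 fun μ h h' => ?_
    have := (List.suffix_of_suffix_length_le h.2 h'.2 (by simp)).eq_of_length (by simp)
    simp at this

variable {l : ℝ≥0}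

theorem no_pre (h1 : l ≤ 1) {σ : L} {T : Set L} (h : W l T < (l : ℝ≥0∞) ^ σ.length) {μ : L}
    (hμ : μ.length ≤ σ.length) : μ ∉ T := fun h' =>
  h.not_ge ((pow_le_pow_right_of_le_one' (by exact_mod_cast h1) hμ).trans (W_mem l h'))

theorem lemA (h0 : 1 / 2 ≤ l) (h1 : l ≤ 1) (σ : L) (T S : Set L) (hT : W l T < (l : ℝ≥0∞) ^ σ.length)
    (hS : W l S ≠ ∞) (θ : ℝ) (d : ℕ)
    (hd : (W l S).toReal < θ * 2 ^ d * (1 - (W l T).toReal / l ^ σ.length)) (hθ : 0 ≤ θ) :
    ∃ ρ, ρ.length = σ.length + d ∧ σ <:+ ρ ∧ (∀ μ ∈ T, ¬ μ <:+ ρ) ∧ (W l (up S ρ)).toReal < θ := by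
  by_contra hc
  push Not at hc
  have f1 : ∀ ν, W l (up S ν) ≠ ∞ := fun ν => ne_top_of_le_ne_top hS (measure_mono fun _ h => h.1)
  have f2 : ∀ ν, W l (up T ν) ≠ ∞ := fun ν => ne_top_of_le_ne_top hT.ne_top (measure_mono fun _ h => h.1)
  have f3 : ∀ ν, (W l (up T ν)).toReal < (l : ℝ) ^ ν.length → ν ∉ T := fun ν h h' => by
    refine h.not_ge ?_
    have := ENNReal.toReal_mono (f2 ν) (W_mem l (show ν ∈ up T ν from ⟨h', List.suffix_rfl⟩))
    simpa using this
  have := spread l (by exact_mod_cast h0) (fun ν => σ <:+ ν ∧ ∀ μ ∈ T, μ <:+ ν → μ = ν)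
    (fun ν => (W l (up S ν)).toReal) (fun ν => (W l (up T ν)).toReal) θ hθ (σ.length + d)
    (fun _ => ENNReal.toReal_nonneg) (fun _ => ENNReal.toReal_nonneg)
    (fun ν _ h h' => by
      have k : ∀ b : Bool, σ <:+ b :: ν ∧ ∀ μ ∈ T, μ <:+ b :: ν → μ = b :: ν := fun b =>
        ⟨h.1.trans (List.suffix_cons _ _), fun μ hμ h2 => (List.suffix_cons_iff.1 h2).resolve_right
          fun h3 => f3 ν h' (h.2 μ hμ h3 ▸ hμ)⟩
      refine ⟨k _, k _, ?_, ?_⟩
      · rw [← ENNReal.toReal_add (f1 _) (f1 _)]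
        exact ENNReal.toReal_mono (f1 _) (W_up l S ν)
      · rw [← ENNReal.toReal_add (f2 _) (f2 _)]
        exact ENNReal.toReal_mono (f2 _) (W_up l T ν))
    (fun ν h2 h h' => hc ν h2 h.1 fun μ hμ h3 => f3 ν h' (h.2 μ hμ h3 ▸ hμ))
    d σ rfl ⟨List.suffix_rfl, fun μ hμ h => (no_pre h1 hT h.length_le hμ).elim⟩
  have h2 : (W l (up S σ)).toReal ≤ (W l S).toReal := ENNReal.toReal_mono hS (measure_mono fun _ h => h.1)
  have h3 : (W l (up T σ)).toReal / l ^ σ.length ≤ (W l T).toReal / l ^ σ.length :=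
    div_le_div_of_nonneg_right (ENNReal.toReal_mono hT.ne_top (measure_mono fun _ h => h.1))
      (by positivity)
  have h4 : 0 ≤ θ * 2 ^ d := by positivity
  nlinarith

theorem gap (h0 : 1 / 2 ≤ l) {σ : L} {T : Set L} (hT : W l T < (l : ℝ≥0∞) ^ σ.length) :
    0 < 1 - (W l T).toReal / l ^ σ.length := by
  have h1 : (0 : ℝ) < l := by
    have : (1 / 2 : ℝ) ≤ l := by exact_mod_cast h0
    linarith
  have := (ENNReal.toReal_lt_toReal hT.ne_top (by simp)).2 hT
  rw [sub_pos, div_lt_one (by positivity)]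
  simpa using this

theorem cond_ne (h0 : 1 / 2 ≤ l) (h1 : l ≤ 1) {σ : L} {T : Set L}
    (hT : W l T < (l : ℝ≥0∞) ^ σ.length) : (cyl σ \ op T).Nonempty := by
  have h2 : ∀ d, IsClosed (cyl σ ∩ ⋂ n ≤ d, {x : X | res x n ∈ T}ᶜ) := fun d =>
    (closed_cyl σ).inter (isClosed_biInter fun n _ => (clopen_res n T).isClosed_compl)
  obtain ⟨x, hx⟩ := IsCompact.nonempty_iInter_of_sequence_nonempty_isCompact_isClosed
    (fun d => cyl σ ∩ ⋂ n ≤ d, {x : X | res x n ∈ T}ᶜ)
    (fun d => inter_subset_inter_right _ (biInter_subset_biInter_left fun n (hn : n ≤ d) =>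
      hn.trans d.le_succ))
    (fun d => by
      obtain ⟨ρ, k1, k2, k3, -⟩ := lemA h0 h1 σ T ∅ hT (by simp) 1 d
        (by simpa using gap h0 hT) zero_le_one
      obtain ⟨x, hx⟩ := cyl_ne ρ
      refine ⟨x, cyl_mono k2 hx, mem_iInter₂.2 fun n hn h => k3 _ h ?_⟩
      rw [← show res x ρ.length = ρ from hx]
      exact res_suf x (by omega)) (h2 0).isCompact h2
  refine ⟨x, (mem_iInter.1 hx 0).1, fun ⟨n, hn⟩ => ?_⟩
  exact mem_iInter₂.1 (mem_iInter.1 hx n).2 n le_rfl hn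

theorem lemA' (h0 : 1 / 2 < l) (h1 : l ≤ 1) {σ : L} {T : Set L} (hT : W l T < (l : ℝ≥0∞) ^ σ.length)
    (S : Set L) (hS : W l S ≠ ∞) (N : ℕ) :
    ∃ (ρ : L) (R : Set L), N ≤ ρ.length ∧ 4 * W l R < (l : ℝ≥0∞) ^ ρ.length ∧
      cyl ρ \ op R ⊆ cyl σ \ op T ∧ (cyl ρ ⊆ op S ∨ cyl ρ \ op R ⊆ (op S)ᶜ) := by
  have h0' : (1 / 2 : ℝ) < l := by exact_mod_cast h0
  have h2 := gap h0.le hT
  have h3 : W l (S ∪ T) ≠ ∞ :=
    ne_top_of_le_ne_top (ENNReal.add_ne_top.2 ⟨hS, hT.ne_top⟩) (measure_union_le _ _)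
  have h4 : Tendsto (fun d : ℕ => (2 * l : ℝ) ^ d * (l ^ σ.length / 4 *
      (1 - (W l T).toReal / l ^ σ.length))) atTop atTop :=
    (tendsto_pow_atTop_atTop_of_one_lt (by linarith)).atTop_mul_const
      (mul_pos (by have : (0 : ℝ) < l := by linarith
                   positivity) h2)
  obtain ⟨d, k1, k2⟩ := ((h4.eventually_gt_atTop (W l (S ∪ T)).toReal).and (eventually_ge_atTop N)).exists
  obtain ⟨ρ, k3, k4, k5, k6⟩ := lemA h0.le h1 σ T (S ∪ T) hT h3 (l ^ (σ.length + d) / 4) d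
    (k1.trans_eq (by rw [mul_pow, pow_add]; ring)) (by positivity)
  have k7 : ∀ x ∈ cyl ρ \ op (up (S ∪ T) ρ), ∀ n, res x n ∈ S ∪ T → res x n <:+ ρ := by
    intro x hx n hn
    rw [← show res x ρ.length = ρ from hx.1]
    refine res_suf x (not_lt.1 fun h => hx.2 ⟨n, hn, ?_⟩)
    rw [← show res x ρ.length = ρ from hx.1]
    exact res_suf x (by simpa using h.le)
  refine ⟨ρ, up (S ∪ T) ρ, by omega, ?_, fun x hx => ⟨cyl_mono k4 hx.1, fun ⟨n, hn⟩ =>
    k5 _ hn (k7 x hx n (Or.inr hn))⟩, ?_⟩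
  · have f1 : W l (up (S ∪ T) ρ) ≠ ∞ := ne_top_of_le_ne_top h3 (measure_mono fun _ h => h.1)
    rw [← ENNReal.toReal_lt_toReal (ENNReal.mul_ne_top (by simp) f1) (by simp), k3]
    simp only [ENNReal.toReal_mul, ENNReal.toReal_ofNat, ENNReal.toReal_pow, ENNReal.coe_toReal]
    linarith
  · by_cases h : ∃ μ ∈ S, μ <:+ ρ
    · obtain ⟨μ, h5, h6⟩ := h
      exact Or.inl fun x hx => ⟨μ.length, (show res x μ.length = μ from cyl_mono h6 hx).symm ▸ h5⟩
    · exact Or.inr fun x hx ⟨n, hn⟩ => h ⟨_, hn, k7 x hx n (Or.inl hn)⟩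

end Pool.Agent.H.MP_d9d12d_lc
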