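import Mathlib
import Pool.Agent.H.MP_d9d12d_lc.A

set_option autoImplicit false

namespace Pool.Agent.H.MP_d9d12d_lc

open Set Filter Topology MeasureTheory PiNat
open scoped ENNReal NNReal

def Cond (l : ℝ≥0) (P : Set X) : Prop :=
  ∃ (σ : L) (T : Set L), W l T < (l : ℝ≥0∞) ^ σ.length ∧ P = cyl σ \ op T

def Nwd (l : ℝ≥0) (N : Set X) : Prop := ∀ P, Cond l P → ∃ Q, Cond l Q ∧ Q ⊆ P \ N

def Sm (l : ℝ≥0) (B : Set X) : Prop := ∃ N : ℕ → Set X, (∀ n, Nwd l (N n)) ∧ B ⊆ ⋃ n, N n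

variable {l : ℝ≥0}

theorem Sm.mono {A B : Set X} (h : Sm l B) (h' : A ⊆ B) : Sm l A :=
  let ⟨N, h1, h2⟩ := h
  ⟨N, h1, h'.trans h2⟩

theorem Nwd.sm {N : Set X} (h : Nwd l N) : Sm l N := ⟨fun _ => N, fun _ => h, subset_iUnion (fun _ => N) 0⟩

theorem sm_empty : Sm l ∅ := Nwd.sm fun P hP => ⟨P, hP, by simp⟩

theorem sm_iUnion {ι : Type} [Countable ι] {B : ι → Set X} (h : ∀ i, Sm l (B i)) : Sm l (⋃ i, B i) := by
  cases isEmpty_or_nonempty ι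
  · simpa using sm_empty
  obtain ⟨e, he⟩ := exists_surjective_nat ι
  choose N h1 h2 using h
  refine ⟨fun n => N (e n.unpair.1) n.unpair.2, fun n => h1 _ _, iUnion_subset fun i x hx => ?_⟩
  obtain ⟨j, rfl⟩ := he i
  obtain ⟨n, hn⟩ := mem_iUnion.1 (h2 _ hx)
  exact mem_iUnion.2 ⟨j.pair n, by simpa using hn⟩

theorem Sm.union {A B : Set X} (h : Sm l A) (h' : Sm l B) : Sm l (A ∪ B) := by
  rw [union_eq_iUnion]
  exact sm_iUnion fun b => by cases b <;> assumption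

theorem not_sm (h0 : 1 / 2 ≤ l) (h1 : l ≤ 1) {P : Set X} (hP : Cond l P) : ¬ Sm l P := by
  rintro ⟨N, h2, h3⟩
  choose! Q h4 h5 using h2
  let R : ℕ → Set X := fun n => Nat.rec P (fun n S => Q n S) n
  have h6 : ∀ n, Cond l (R n) := fun n => by
    induction n with
    | zero => exact hP
    | succ n ih => exact h4 n _ ih
  have h7 : ∀ n, IsClosed (R n) := fun n => by
    obtain ⟨σ, T, -, h⟩ := h6 n
    exact h ▸ (closed_cyl σ).sdiff (open_op T)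
  obtain ⟨x, hx⟩ := IsCompact.nonempty_iInter_of_sequence_nonempty_isCompact_isClosed R
    (fun n => (h5 n _ (h6 n)).trans sdiff_subset) (fun n => by
      obtain ⟨σ, T, h, h'⟩ := h6 n
      exact h' ▸ cond_ne h0 h1 h) (h7 0).isCompact h7
  obtain ⟨n, hn⟩ := mem_iUnion.1 (h3 (mem_iInter.1 hx 0))
  exact (h5 n _ (h6 n) (mem_iInter.1 hx (n + 1))).2 hn

theorem lt4 {a b : ℝ≥0∞} (h : 4 * a < b) : a < b :=
  (le_mul_of_one_le_left zero_le (by norm_num)).trans_lt h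

theorem op_union (S T : Set L) : op (S ∪ T) = op S ∪ op T := by
  ext x
  simp [op, exists_or]

theorem banach (h0 : 1 / 2 < l) (h1 : l ≤ 1) {B : Set X}
    (h : ∀ P, Cond l P → ∃ Q, Cond l Q ∧ Q ⊆ P ∧ Sm l (Q ∩ B)) : Sm l B := by
  have h2 : ∀ σ : L, ∃ T : Set L, (∃ T, 4 * W l T < (l : ℝ≥0∞) ^ σ.length ∧ Sm l ((cyl σ \ op T) ∩ B)) →
      4 * W l T < (l : ℝ≥0∞) ^ σ.length ∧ Sm l ((cyl σ \ op T) ∩ B) := fun σ => by
    by_cases h : ∃ T, 4 * W l T < (l : ℝ≥0∞) ^ σ.length ∧ Sm l ((cyl σ \ op T) ∩ B)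
    · obtain ⟨T, hT⟩ := h
      exact ⟨T, fun _ => hT⟩
    · exact ⟨∅, fun h' => absurd h' h⟩
  choose T hT using h2
  let A : Set L := {σ | ∃ T, 4 * W l T < (l : ℝ≥0∞) ^ σ.length ∧ Sm l ((cyl σ \ op T) ∩ B)}
  refine ((Nwd.sm (N := (⋃ σ : A, cyl σ \ op (T σ))ᶜ) fun P hP => ?_).union
    (sm_iUnion fun σ : A => (hT σ σ.2).2)).mono fun x hx => ?_
  · obtain ⟨_, ⟨σ, S, k1, rfl⟩, k2, k3⟩ := h P hP
    obtain ⟨ρ, R, -, k4, k5, -⟩ := lemA' h0 h1 k1 ∅ (by simp) 0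
    have k6 : ρ ∈ A := ⟨R, k4, k3.mono (inter_subset_inter_left _ k5)⟩
    refine ⟨_, ⟨ρ, R ∪ T ρ, (measure_union_le _ _).trans_lt ?_, rfl⟩, fun x hx => ?_⟩
    · have k7 := ENNReal.add_lt_add k4 (hT ρ k6).1
      rw [← mul_add, ← two_mul] at k7
      exact lt_of_mul_lt_mul_left' ((mul_le_mul_left (by norm_num) _).trans_lt k7)
    · rw [op_union] at hx
      exact ⟨k2 (k5 ⟨hx.1, fun h => hx.2 (Or.inl h)⟩),
        fun h => h (mem_iUnion.2 ⟨⟨ρ, k6⟩, hx.1, fun h => hx.2 (Or.inr h)⟩)⟩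
  · by_cases h3 : x ∈ ⋃ σ : A, cyl σ \ op (T σ)
    · obtain ⟨σ, hσ⟩ := mem_iUnion.1 h3
      exact Or.inr (mem_iUnion.2 ⟨σ, hσ, hx⟩)
    · exact Or.inl h3

theorem split (h0 : 1 / 2 < l) (h1 : l ≤ 1) {P R : Set X} (hP : Cond l P) (hR : Cond l R) :
    ∃ Q, Cond l Q ∧ Q ⊆ R ∧ (Q ⊆ P ∨ Q ⊆ Pᶜ) := by
  obtain ⟨σ, S, k1, rfl⟩ := hP
  obtain ⟨ρ, T, k2, rfl⟩ := hR
  obtain ⟨τ, U, k3, k4, k5, k6⟩ := lemA' h0 h1 k2 S k1.ne_top σ.length
  refine ⟨_, ⟨τ, U, lt4 k4, rfl⟩, k5, ?_⟩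
  by_cases h : σ <:+ τ
  · exact k6.elim (fun k6 => Or.inr fun x hx h' => h'.2 (k6 hx.1))
      fun k6 => Or.inl fun x hx => ⟨cyl_mono h hx.1, k6 hx⟩
  · refine Or.inr fun x hx h' => h ?_
    rw [← show res x σ.length = σ from h'.1, ← show res x τ.length = τ from hx.1]
    exact res_suf x k3

theorem baire (h0 : 1 / 2 < l) (h1 : l ≤ 1) {B : Set X} (hB : MeasurableSet B) :
    ∀ P, Cond l P → ∃ Q, Cond l Q ∧ Q ⊆ P ∧ (Sm l (Q \ B) ∨ Sm l (Q ∩ B)) := by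
  have h2 : (MeasurableSpace.pi : MeasurableSpace X) ≤ MeasurableSpace.generateFrom (range cyl) := by
    refine iSup_le fun i => Measurable.comap_le fun s _ => ?_
    have : (fun x : X => x i) ⁻¹' s = ⋃ ν : {ν : L | ∃ x : X, x i ∈ s ∧ ν = res x (i + 1)}, cyl ν := by
      ext x
      simp only [mem_preimage, mem_iUnion]
      refine ⟨fun h => ⟨⟨_, x, h, rfl⟩, mem_cyl x _⟩, ?_⟩
      rintro ⟨⟨_, y, h, rfl⟩, hx⟩
      have h3 : res x (i + 1) = res y (i + 1) := by simpa only [cyl, mem_ofPred_eq, res_length] using hx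
      rwa [res_eq_res.1 h3 i.lt_succ_self]
    rw [this]
    exact MeasurableSet.iUnion fun ν => MeasurableSpace.measurableSet_generateFrom ⟨_, rfl⟩
  replace hB := h2 B hB
  induction B, hB using MeasurableSpace.generateFrom_induction with
  | hC t ht _ =>
    obtain ⟨ν, rfl⟩ := ht
    intro P hP
    obtain ⟨Q, k1, k2, k3⟩ := split h0 h1 (P := cyl ν) ⟨ν, ∅, by
      have : l ≠ 0 := fun h => by simp [h] at h0
      simp [pos_iff_ne_zero, this], by simp [op]⟩ hP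
    exact ⟨Q, k1, k2, k3.imp (fun h => sm_empty.mono fun x hx => hx.2 (h hx.1))
      fun h => sm_empty.mono fun x hx => h hx.1 hx.2⟩
  | empty => exact fun P hP => ⟨P, hP, subset_rfl, Or.inr (by simpa using sm_empty)⟩
  | compl t _ ih =>
    intro P hP
    obtain ⟨Q, k1, k2, k3⟩ := ih P hP
    exact ⟨Q, k1, k2, by rw [Set.sdiff_compl]; exact k3.symm⟩
  | iUnion s _ ih =>
    intro P hP
    by_cases h : ∃ Q, Cond l Q ∧ Q ⊆ P ∧ ∃ n, Sm l (Q \ s n)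
    · obtain ⟨Q, k1, k2, n, k3⟩ := h
      exact ⟨Q, k1, k2, Or.inl (k3.mono (sdiff_subset_sdiff_right (subset_iUnion s n)))⟩
    · refine ⟨P, hP, subset_rfl, Or.inr ?_⟩
      rw [inter_iUnion]
      refine sm_iUnion fun n => banach h0 h1 fun R hR => ?_
      obtain ⟨Q, k1, k2, k3 | k3⟩ := split h0 h1 hP hR
      · obtain ⟨Q', k4, k5, k6⟩ := ih n Q k1
        exact ⟨Q', k4, k5.trans k2, (k6.resolve_left fun k7 => h ⟨Q', k4, k5.trans k3, n, k7⟩).mono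
          fun x hx => ⟨hx.1, hx.2.2⟩⟩
      · exact ⟨Q, k1, k2, sm_empty.mono fun x hx => k3 hx.1 hx.2.1⟩

noncomputable def c (l : ℝ≥0) (B : Set X) : ℝ≥0∞ := ⨅ (T : Set L) (_ : Sm l (B \ op T)), W l T

theorem c_le {B : Set X} {T : Set L} (h : Sm l (B \ op T)) : c l B ≤ W l T := iInf₂_le T h

theorem c_mono {A B : Set X} (h : A ⊆ B) : c l A ≤ c l B :=
  le_iInf₂ fun _ hT => c_le (hT.mono (sdiff_subset_sdiff_left h))

theorem c_cap (B : Set X) (ν : L) : c l (B ∩ cyl ν) ≤ (l : ℝ≥0∞) ^ ν.length :=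
  W_single l ν ▸ c_le (sm_empty.mono fun _ hx => hx.2 ⟨ν.length, hx.1.2⟩)

theorem c_top (B : Set X) : c l B ≠ ∞ := by
  have := c_cap (l := l) B []
  rw [show cyl [] = univ from eq_univ_of_forall fun _ => rfl, inter_univ] at this
  exact ne_top_of_le_ne_top (by simp) this

theorem c_cyl (h0 : 1 / 2 ≤ l) (h1 : l ≤ 1) (ν : L) : (l : ℝ≥0∞) ^ ν.length ≤ c l (cyl ν) :=
  le_iInf₂ fun T hT => not_lt.1 fun h => not_sm h0 h1 ⟨ν, T, h, rfl⟩ hT

theorem c_sub (A B : Set X) : c l (A ∪ B) + c l (A ∩ B) ≤ c l A + c l B := by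
  classical
  refine ENNReal.le_iInf₂_add_iInf₂ fun S hS T hT => ?_
  let S' : Set L := {ν | ∃ μ ∈ T, μ <:+ ν}
  let T' : Set L := {ν | ∃ μ ∈ S, μ <:+ ν ∧ μ ≠ ν}
  have h1 : c l (A ∪ B) ≤ W l (S \ S' ∪ T \ T') := c_le ((hS.union hT).mono fun x hx => by
    by_contra h
    simp only [mem_union, Set.mem_sdiff, not_or, not_and, not_not] at h
    have h2 : ∃ n, res x n ∈ S ∪ T := by
      rw [← mem_ofPred_eq (p := fun x => ∃ n, res x n ∈ S ∪ T), ← op, op_union]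
      exact hx.1.imp h.1 h.2
    have h3 : ∀ μ ∈ S ∪ T, μ <:+ res x (Nat.find h2) → μ = res x (Nat.find h2) := fun μ hμ h4 => by
      refine h4.eq_of_length (h4.length_le.antisymm ?_)
      rw [res_length]
      refine Nat.find_min' h2 ?_
      rwa [show res x μ.length = μ from cyl_mono h4 (mem_cyl x _)]
    refine hx.2 ⟨Nat.find h2, ?_⟩
    by_cases h4 : res x (Nat.find h2) ∈ T
    · exact Or.inr ⟨h4, fun ⟨μ, k1, k2, k3⟩ => k3 (h3 μ (Or.inl k1) k2)⟩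
    · exact Or.inl ⟨(Nat.find_spec h2).resolve_right h4,
        fun ⟨μ, k1, k2⟩ => h4 (h3 μ (Or.inr k1) k2 ▸ k1)⟩)
  have h2 : c l (A ∩ B) ≤ W l (S ∩ S' ∪ T ∩ T') := c_le ((hS.union hT).mono fun x hx => by
    by_contra h
    simp only [mem_union, Set.mem_sdiff, not_or, not_and, not_not] at h
    obtain ⟨m, hm⟩ := h.1 hx.1.1
    obtain ⟨n, hn⟩ := h.2 hx.1.2
    rcases le_or_gt n m with h3 | h3
    · exact hx.2 ⟨m, Or.inl ⟨hm, _, hn, res_suf x h3⟩⟩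
    · exact hx.2 ⟨n, Or.inr ⟨hn, _, hm, res_suf x h3.le, fun e => h3.ne (by
        simpa using congrArg List.length e)⟩⟩)
  refine (add_le_add (h1.trans (measure_union_le _ _)) (h2.trans (measure_union_le _ _))).trans ?_
  rw [← measure_inter_add_sdiff S (ms S'), ← measure_inter_add_sdiff T (ms T')]
  exact le_of_eq (by ring)

theorem cyl_split (B : Set X) (ν : L) :
    B ∩ cyl ν = B ∩ cyl (false :: ν) ∪ B ∩ cyl (true :: ν) := by
  ext x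
  simp only [cyl, mem_inter_iff, mem_ofPred_eq, List.length_cons, res_succ, List.cons.injEq, mem_union]
  cases x ν.length <;> simp

theorem c_rec (h1 : l ≤ 1) (B : Set X) (ν : L) (h : c l (B ∩ cyl ν) < (l : ℝ≥0∞) ^ ν.length) :
    c l (B ∩ cyl (false :: ν)) + c l (B ∩ cyl (true :: ν)) = c l (B ∩ cyl ν) := by
  refine le_antisymm (not_lt.1 fun h2 => ?_) ?_
  · obtain ⟨T, hT⟩ := iInf_lt_iff.1 (lt_min h h2)
    obtain ⟨h3, h4⟩ := iInf_lt_iff.1 hT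
    have h5 : ∀ b, c l (B ∩ cyl (b :: ν)) ≤ W l (up T (b :: ν)) := fun b =>
      c_le (h3.mono fun x hx => ⟨⟨hx.1.1, cyl_mono (List.suffix_cons _ _) hx.1.2⟩, fun ⟨n, hn⟩ =>
        hx.2 ⟨n, hn, by
          rw [← show res x (b :: ν).length = b :: ν from hx.1.2]
          refine res_suf x (not_lt.1 fun h6 => no_pre h1 (lt_min_iff.1 h4).1 ?_ hn)
          simpa [Nat.lt_succ_iff] using h6⟩⟩)
    exact (lt_min_iff.1 h4).2.not_ge (((add_le_add (h5 _) (h5 _)).trans (W_up l T ν)).trans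
      (measure_mono fun _ h => h.1))
  · rw [cyl_split B ν]
    exact le_self_add.trans (c_sub _ _)

end Pool.Agent.H.MP_d9d12d_lc
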