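import Mathlib
import Pool.Agent.H.MP_d9d12d_lc.B

set_option autoImplicit false

namespace Pool.Agent.H.MP_d9d12d_lc

open Set Filter Topology MeasureTheory PiNat
open scoped ENNReal NNReal

variable {l : ℝ≥0}

noncomputable def r (l : ℝ≥0) (B : Set X) : ℝ := (c l B).toReal

theorem r_mono {A B : Set X} (h : A ⊆ B) : r l A ≤ r l B := ENNReal.toReal_mono (c_top _) (c_mono h)

theorem r_sub (A B : Set X) : r l (A ∪ B) + r l (A ∩ B) ≤ r l A + r l B := by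
  simp only [r]
  rw [← ENNReal.toReal_add (c_top _) (c_top _), ← ENNReal.toReal_add (c_top _) (c_top _)]
  exact ENNReal.toReal_mono (ENNReal.add_ne_top.2 ⟨c_top _, c_top _⟩) (c_sub A B)

theorem r_rec (h1 : l ≤ 1) (B : Set X) (ν : L) (h : r l (B ∩ cyl ν) < (l : ℝ) ^ ν.length) :
    r l (B ∩ cyl (false :: ν)) + r l (B ∩ cyl (true :: ν)) = r l (B ∩ cyl ν) := by
  simp only [r]
  rw [← ENNReal.toReal_add (c_top _) (c_top _), c_rec h1]
  rw [← ENNReal.toReal_lt_toReal (c_top _) (by simp)]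
  simpa [r] using h

theorem r_sum {Y : Type} (b : Y → Set X) (B Z : Set X) (s : Finset Y) :
    r l ((B ∪ ⋃ y ∈ s, b y) ∩ Z) - r l (B ∩ Z) ≤ ∑ y ∈ s, (r l ((B ∪ b y) ∩ Z) - r l (B ∩ Z)) := by
  classical
  induction s using Finset.induction_on with
  | empty => simp
  | insert y s hy ih =>
    rw [Finset.sum_insert hy, Finset.set_biUnion_insert]
    have h1 := r_sub (l := l) ((B ∪ ⋃ y ∈ s, b y) ∩ Z) ((B ∪ b y) ∩ Z)
    have h2 : r l (B ∩ Z) ≤ r l ((B ∪ ⋃ y ∈ s, b y) ∩ Z ∩ ((B ∪ b y) ∩ Z)) :=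
      r_mono fun x hx => ⟨⟨Or.inl hx.1, hx.2⟩, Or.inl hx.1, hx.2⟩
    have h3 : r l ((B ∪ (b y ∪ ⋃ y ∈ s, b y)) ∩ Z) ≤ r l ((B ∪ ⋃ y ∈ s, b y) ∩ Z ∪ (B ∪ b y) ∩ Z) :=
      r_mono fun x hx => by
        rcases hx.1 with h | h | h
        exacts [Or.inl ⟨Or.inl h, hx.2⟩, Or.inr ⟨Or.inr h, hx.2⟩, Or.inl ⟨Or.inr h, hx.2⟩]
    linarith

theorem gain (h0 : 1 / 2 ≤ l) (h1 : l ≤ 1) {Y : Type} [Fintype Y] (m : ℕ) (hY : Fintype.card Y = 2 ^ m)
    (b : Y → Set X) (hb : ∀ x, ∃ y, x ∈ b y) (B : Set X) (σ : L)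
    (h : r l (B ∩ cyl σ) < (l : ℝ) ^ σ.length / 4) :
    ∃ y, r l (B ∩ cyl σ) + (l : ℝ) ^ (σ.length + (m + 1)) / 2 ≤ r l ((B ∪ b y) ∩ cyl σ) := by
  by_contra hc
  push Not at hc
  have h0' : (1 / 2 : ℝ) ≤ l := by exact_mod_cast h0
  have h2 : (0 : ℝ) < l := by linarith
  have h3 : ∀ ν y, 0 ≤ r l ((B ∪ b y) ∩ cyl ν) - r l (B ∩ cyl ν) := fun ν y =>
    sub_nonneg.2 (r_mono (inter_subset_inter_left _ subset_union_left))
  set θ : ℝ := (l : ℝ) ^ (σ.length + (m + 1)) / 2 with hθ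
  have h4 : 0 < θ := by positivity
  have h5 := spread l h0' (fun ν => ∀ y, r l ((B ∪ b y) ∩ cyl ν) - r l (B ∩ cyl ν) < θ)
    (fun ν => ∑ y, (r l ((B ∪ b y) ∩ cyl ν) - r l (B ∩ cyl ν))) (fun ν => 2 * r l (B ∩ cyl ν)) θ h4.le
    (σ.length + (m + 1)) (fun ν => Finset.sum_nonneg fun y _ => h3 ν y)
    (fun ν => mul_nonneg zero_le_two ENNReal.toReal_nonneg)
    (fun ν k1 k2 k3 => by
      have k4 : 2 * θ ≤ (l : ℝ) ^ ν.length := by
        rw [hθ, mul_div_cancel₀ _ two_ne_zero]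
        exact pow_le_pow_of_le_one h2.le (by exact_mod_cast h1) k1.le
      have k5 := r_rec h1 B ν (by linarith)
      have k6 := fun y => r_rec h1 (B ∪ b y) ν (by linarith [k2 y])
      refine ⟨fun y => by linarith [k6 y, k2 y, h3 (true :: ν) y],
        fun y => by linarith [k6 y, k2 y, h3 (false :: ν) y], ?_, by linarith⟩
      rw [← Finset.sum_add_distrib]
      exact Finset.sum_le_sum fun y _ => by linarith [k6 y])
    (fun ν k1 _ k3 => by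
      refine le_trans ?_ (r_sum b B (cyl ν) Finset.univ)
      have k4 : (l : ℝ) ^ ν.length ≤ r l ((B ∪ ⋃ y ∈ Finset.univ, b y) ∩ cyl ν) := by
        refine le_trans ?_ (r_mono (A := cyl ν) fun x hx => ⟨Or.inr ?_, hx⟩)
        · simpa [r] using ENNReal.toReal_mono (c_top _) (c_cyl h0 h1 ν)
        · simpa using hb x
      rw [hθ, ← k1]
      linarith)
    (m + 1) σ rfl fun y => by linarith [hc y]
  have : Nonempty Y := Fintype.card_pos_iff.1 (by rw [hY]; positivity)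
  have h6 : ∑ y, (r l ((B ∪ b y) ∩ cyl σ) - r l (B ∩ cyl σ)) < ∑ _y : Y, θ :=
    Finset.sum_lt_sum_of_nonempty Finset.univ_nonempty fun y _ => by linarith [hc y]
  rw [Finset.sum_const, Finset.card_univ, hY, nsmul_eq_mul] at h6
  have h7 : 2 * r l (B ∩ cyl σ) / (l : ℝ) ^ σ.length ≤ 1 / 2 := by
    rw [div_le_iff₀ (by positivity)]
    linarith
  have h8 : 0 < θ * 2 ^ m := by positivity
  push_cast at h6
  rw [pow_succ] at h5
  nlinarith

theorem greedy (h0 : 1 / 2 ≤ l) (h1 : l ≤ 1) {Y : Type} [Fintype Y] (m : ℕ) (hY : Fintype.card Y = 2 ^ m)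
    (b : Y → Set X) (hb : ∀ x, ∃ y, x ∈ b y) (σ : L) :
    ∃ C : Finset Y, (C.card : ℝ) * l ^ m ≤ 3 ∧ (l : ℝ) ^ σ.length / 4 ≤ r l ((⋃ y ∈ C, b y) ∩ cyl σ) := by
  classical
  have h0' : (1 / 2 : ℝ) ≤ l := by exact_mod_cast h0
  have h2 : (0 : ℝ) < l := by linarith
  have h3 : ∀ j : ℕ, ∃ C : Finset Y, C.card ≤ j ∧
      ((l : ℝ) ^ σ.length / 4 ≤ r l ((⋃ y ∈ C, b y) ∩ cyl σ) ∨
        j * ((l : ℝ) ^ (σ.length + (m + 1)) / 2) ≤ r l ((⋃ y ∈ C, b y) ∩ cyl σ)) := by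
    intro j
    induction j with
    | zero => exact ⟨∅, le_rfl, Or.inr (by simp [r])⟩
    | succ j ih =>
      obtain ⟨C, k1, k2⟩ := ih
      by_cases h : (l : ℝ) ^ σ.length / 4 ≤ r l ((⋃ y ∈ C, b y) ∩ cyl σ)
      · exact ⟨C, k1.trans j.le_succ, Or.inl h⟩
      · obtain ⟨y, hy⟩ := gain h0 h1 m hY b hb _ σ (not_le.1 h)
        refine ⟨insert y C, (Finset.card_insert_le _ _).trans (by omega), Or.inr ?_⟩
        rw [Finset.set_biUnion_insert, union_comm]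
        push_cast
        linarith [k2.resolve_left h]
  obtain ⟨C, k1, k2⟩ := h3 ⌈((l : ℝ) ^ m)⁻¹⌉₊
  have h4 : (0 : ℝ) < l ^ m := by positivity
  have h5 : (l : ℝ) ^ m ≤ 1 := pow_le_one₀ h2.le (by exact_mod_cast h1)
  refine ⟨C, ?_, k2.elim id fun k2 => le_trans ?_ k2⟩
  · have k3 : (C.card : ℝ) ≤ ((l : ℝ) ^ m)⁻¹ + 1 :=
      (Nat.cast_le.2 k1).trans (Nat.ceil_lt_add_one (by positivity)).le
    have := mul_le_mul_of_nonneg_right k3 h4.le
    rw [add_mul, inv_mul_cancel₀ h4.ne'] at this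
    linarith
  · refine le_trans ?_ (mul_le_mul_of_nonneg_right (Nat.le_ceil _) (by positivity))
    have : ((l : ℝ) ^ m)⁻¹ * (l ^ (σ.length + (m + 1)) / 2) = l ^ σ.length * l / 2 := by
      rw [pow_add, pow_succ]
      field_simp
    rw [this]
    nlinarith [pow_pos h2 σ.length]

theorem small_image (h0 : 1 / 2 < l) (h1 : l ≤ 1) (f : X → X) (hf : Measurable f) :
    ∃ T : Set L, (∀ l' < l, W l' T ≠ ∞) ∧ Sm l {x | ¬ ∃ᶠ n in atTop, res (f x) n ∈ T} := by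
  obtain ⟨e, he⟩ := exists_surjective_nat L
  have h2 := fun m => greedy h0.le h1 (Y := List.Vector Bool m) m (by simp)
    (fun y => f ⁻¹' cyl y.1) (fun x => ⟨⟨res (f x) m, res_length _ _⟩, mem_cyl _ _⟩) (e m.unpair.1)
  choose C h3 h4 using h2
  let T : Set L := ⋃ m, ⋃ y ∈ C m, {y.1}
  refine ⟨T, fun l' hl => ?_, ?_⟩
  · have k0 : (0 : ℝ≥0) < l := zero_le.trans_lt hl
    have k1 : ∀ m, W l' (⋃ y ∈ C m, {y.1}) ≤ 3 * ((l' / l : ℝ≥0) : ℝ≥0∞) ^ m := fun m => by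
      refine (measure_biUnion_finset_le _ _).trans ?_
      simp only [W_single, List.Vector.length_val, Finset.sum_const, nsmul_eq_mul]
      have k2 : ((C m).card : ℝ≥0) * l ^ m ≤ 3 := by exact_mod_cast h3 m
      have k3 : ((C m).card : ℝ≥0) * l' ^ m ≤ 3 * (l' / l) ^ m := by
        rw [show ((C m).card : ℝ≥0) * l' ^ m = (C m).card * l ^ m * (l' / l) ^ m by
          rw [div_pow]; field_simp]
        exact mul_le_mul_left k2 _
      exact_mod_cast k3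
    refine ne_top_of_le_ne_top ?_ ((measure_iUnion_le _).trans (ENNReal.tsum_le_tsum k1))
    rw [ENNReal.tsum_mul_left, ENNReal.tsum_geometric]
    refine ENNReal.mul_ne_top (by simp) (ENNReal.inv_ne_top.2 (tsub_pos_of_lt ?_).ne')
    exact_mod_cast (div_lt_one k0).2 hl
  · simp only [not_frequently, eventually_atTop, ofPred_exists]
    refine sm_iUnion fun N => banach h0 h1 fun P hP => ?_
    have k1 : MeasurableSet {x | ∀ n ≥ N, res (f x) n ∉ T} := by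
      simp only [ofPred_forall]
      exact MeasurableSet.iInter fun n => MeasurableSet.iInter fun _ =>
        hf (clopen_res n Tᶜ).measurableSet
    obtain ⟨_, ⟨σ, S, k2, rfl⟩, k3, k4⟩ := baire h0 h1 k1 P hP
    refine ⟨_, ⟨σ, S, k2, rfl⟩, k3, k4.resolve_left fun k4 => ?_⟩
    obtain ⟨ρ, R, -, k5, k6, -⟩ := lemA' h0 h1 k2 ∅ (by simp) 0
    obtain ⟨j, rfl⟩ := he ρ
    have k7 := h4 (j.pair N)
    rw [Nat.unpair_pair] at k7
    have k8 : c l ((⋃ y ∈ C (j.pair N), f ⁻¹' cyl y.1) ∩ cyl (e j)) ≤ W l R :=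
      c_le (k4.mono fun x hx => ⟨k6 ⟨hx.1.2, hx.2⟩, fun h => by
        obtain ⟨y, hy, h'⟩ := mem_iUnion₂.1 hx.1.1
        refine h _ (Nat.right_le_pair j N) (mem_iUnion.2 ⟨_, mem_iUnion₂.2 ⟨y, hy, ?_⟩⟩)
        simpa [cyl] using h'⟩)
    have k9 := ENNReal.toReal_mono (lt4 k5).ne_top k8
    rw [← ENNReal.toReal_lt_toReal k5.ne_top (by simp)] at k5
    simp only [ENNReal.toReal_mul, ENNReal.toReal_ofNat, ENNReal.toReal_pow, ENNReal.coe_toReal] at k5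
    simp only [r] at k7
    linarith

end Pool.Agent.H.MP_d9d12d_lc
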