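import Mathlib
import Pool.Agent.H.MP_d9d12d_lc.C
import Pool.Agent.H.MP_c74059_gt.A

set_option autoImplicit false

namespace Pool.Agent.H.MP_d9d12d_lc

open Set Filter Topology MeasureTheory PiNat Cardinal
open scoped ENNReal NNReal

attribute [local instance] PiNat.metricSpace

noncomputable def lam (t : ℝ≥0) : ℝ≥0 := (1 / 2) ^ (t : ℝ)

theorem lam_lt {s t : ℝ≥0} (h : s < t) : lam t < lam s :=
  NNReal.rpow_lt_rpow_of_exponent_gt (by norm_num) (by norm_num) h

theorem lam_zero : lam 0 = 1 := by simp [lam]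
theorem lam_one : lam 1 = 1 / 2 := by simp [lam]

theorem lam_pow (t : ℝ≥0) (n : ℕ) : ((lam t : ℝ≥0∞)) ^ n = ((1 / 2 : ℝ≥0∞) ^ n) ^ (t : ℝ) := by
  rw [lam, ENNReal.coe_rpow_of_nonneg _ t.coe_nonneg, ← ENNReal.rpow_natCast, ← ENNReal.rpow_natCast,
    ← ENNReal.rpow_mul, ← ENNReal.rpow_mul, mul_comm]
  simp

theorem of_half (n : ℕ) : ENNReal.ofReal ((1 / 2) ^ n) = (1 / 2 : ℝ≥0∞) ^ n := by
  rw [ENNReal.ofReal_pow (by norm_num), ENNReal.ofReal_div_of_pos (by norm_num)]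
  simp

theorem diam_cyl (ν : L) : Metric.ediam (cyl ν) ≤ (1 / 2 : ℝ≥0∞) ^ ν.length := by
  refine Metric.ediam_le fun x hx y hy => ?_
  rw [edist_dist, ← of_half]
  refine ENNReal.ofReal_le_ofReal (mem_cylinder_iff_dist_le.1 ?_)
  rw [cylinder_eq_res]
  exact hx.trans hy.symm

theorem up_dim (s : ℝ≥0) (T : Set L) (h : ∀ t > s, W (lam t) T ≠ ∞) :
    dimH {x : X | ∃ᶠ n in atTop, res x n ∈ T} ≤ s := by
  refine le_of_forall_gt_imp_ge_of_dense fun t ht => ?_
  induction t using ENNReal.recTopCoe with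
  | top => exact le_top
  | coe t =>
  refine dimH_le_of_hausdorffMeasure_ne_top (ne_top_of_le_ne_top (h t (by exact_mod_cast ht)) ?_)
  refine (Measure.hausdorffMeasure_le_liminf_tsum (ι := fun N : ℕ => {ν : L // ν ∈ T ∧ N ≤ ν.length})
    (l := atTop) t _ (fun N => (1 / 2 : ℝ≥0∞) ^ N)
    (ENNReal.tendsto_pow_atTop_nhds_zero_of_lt_one (by norm_num)) (fun N ν => cyl ν.1)
    (Eventually.of_forall fun N ν => (diam_cyl _).trans
      (pow_le_pow_right_of_le_one' (by norm_num) ν.2.2))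
    (Eventually.of_forall fun N x hx => ?_)).trans
    (liminf_le_of_frequently_le' (Frequently.of_forall fun N => ?_))
  · obtain ⟨n, h1, h2⟩ := frequently_atTop.1 hx N
    exact mem_iUnion.2 ⟨⟨_, h2, by simpa using h1⟩, mem_cyl x n⟩
  · refine le_trans (ENNReal.tsum_le_tsum fun ν => ENNReal.rpow_le_rpow (diam_cyl _) t.coe_nonneg) ?_
    simp only [← lam_pow, ← W_single]
    rw [← measure_iUnion (fun a b hab => by simpa [Function.onFun, Subtype.val_inj] using hab)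
      fun _ => ms _]
    exact measure_mono (iUnion_subset fun ν => singleton_subset_iff.2 ν.2.1)

theorem low_dim {s : ℝ≥0} (hs : 0 < s) (E : Set X) (h : dimH E < s) (ε : ℝ≥0∞) (hε : 0 < ε) :
    ∃ T, W (lam s) T < ε ∧ E ⊆ op T := by
  classical
  have h1 := hausdorffMeasure_of_dimH_lt h
  rw [Measure.hausdorffMeasure_apply] at h1
  have h2 := (le_iSup₂ (f := fun (r : ℝ≥0∞) (_ : 0 < r) => ⨅ (t : ℕ → Set X) (_ : E ⊆ ⋃ n, t n)
    (_ : ∀ n, Metric.ediam (t n) ≤ r), ∑' n, ⨆ _ : (t n).Nonempty, Metric.ediam (t n) ^ (s : ℝ))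
    1 one_pos).trans_lt (h1.trans_lt (ENNReal.half_pos hε.ne'))
  simp only [iInf_lt_iff] at h2
  obtain ⟨t, h3, -, h4⟩ := h2
  obtain ⟨δ, h5, h6⟩ := ENNReal.exists_pos_sum_of_countable' (ENNReal.half_pos hε.ne').ne' ℕ
  have h7 : ∀ n, ∃ ν : L, t n ⊆ cyl ν ∧ (lam s : ℝ≥0∞) ^ ν.length ≤
      (⨆ _ : (t n).Nonempty, Metric.ediam (t n) ^ (s : ℝ)) + δ n := by
    intro n
    by_cases h8 : ∃ k, ∃ x ∈ t n, ∃ y ∈ t n, x k ≠ y k
    · obtain ⟨x, hx, y, hy, hxy⟩ := Nat.find_spec h8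
      have h9 : ∀ z ∈ t n, ∀ ⦃m⦄, m < Nat.find h8 → z m = x m := fun z hz m hm =>
        by_contra fun h' => Nat.find_min h8 hm ⟨z, hz, x, hx, h'⟩
      refine ⟨res x (Nat.find h8), fun z hz => by simpa [cyl, res_eq_res] using h9 z hz,
        le_add_right ?_⟩
      rw [iSup_pos ⟨x, hx⟩, res_length, lam_pow]
      refine ENNReal.rpow_le_rpow (le_trans ?_ (Metric.edist_le_ediam_of_mem hx hy)) s.2
      have h10 : x ≠ y := fun e => hxy (by rw [e])
      rw [edist_dist, dist_eq_of_ne h10, of_half]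
      exact pow_le_pow_right_of_le_one' (by norm_num)
        (not_lt.1 fun h' => hxy (apply_eq_of_lt_firstDiff h'))
    · push Not at h8
      obtain ⟨k, hk⟩ := ((ENNReal.tendsto_pow_atTop_nhds_zero_of_lt_one (r := lam s) (by
        exact_mod_cast lam_zero ▸ lam_lt hs)).eventually_le_const (h5 n)).exists
      rcases (t n).eq_empty_or_nonempty with h9 | ⟨x, hx⟩
      · exact ⟨res (fun _ => false) k, by simp [h9], le_add_left (by simpa using hk)⟩
      · exact ⟨res x k, fun z hz => by simpa [cyl, res_eq_res] using fun m _ => h8 m z hz x hx,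
          le_add_left (by simpa using hk)⟩
  choose ν h8 h9 using h7
  refine ⟨⋃ n, {ν n}, (measure_iUnion_le _).trans_lt ?_, fun x hx => ?_⟩
  · simp only [W_single]
    refine (ENNReal.tsum_le_tsum h9).trans_lt ?_
    rw [ENNReal.tsum_add, ← ENNReal.add_halves ε]
    exact ENNReal.add_lt_add h4 h6
  · obtain ⟨n, hn⟩ := mem_iUnion.1 (h3 hx)
    exact ⟨(ν n).length, mem_iUnion.2 ⟨n, h8 n hn⟩⟩

theorem card_fun : #{f : X → X | Measurable f} ≤ 𝔠 := by
  have card_meas : #{s : Set X | MeasurableSet s} ≤ 𝔠 := by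
    obtain ⟨b, hb, he⟩ := (inferInstance : MeasurableSpace.CountablyGenerated X).isCountablyGenerated
    have := MeasurableSpace.cardinal_measurableSet_le_continuum (s := b)
      ((le_aleph0_iff_set_countable.2 hb).trans aleph0_le_continuum)
    rwa [← he] at this
  refine le_trans (mk_le_of_injective (β := ℕ → {s : Set X | MeasurableSet s})
    (f := fun f n => ⟨{x | f.1 x n = true},
      ((measurable_pi_apply n).comp f.2) (measurableSet_singleton true)⟩) fun f g h => ?_) ?_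
  · refine Subtype.ext (funext fun x => funext fun n => ?_)
    exact Bool.eq_iff_iff.2 (Set.ext_iff.1 (congrArg Subtype.val (congrFun h n)) x)
  · rw [← power_def, mk_nat]
    exact (power_le_power_right card_meas).trans continuum_power_aleph0.le

theorem dim_le_one (E : Set X) : dimH E ≤ 1 := by
  refine le_trans (dimH_mono fun x _ => Frequently.of_forall fun n => mem_univ (res x n))
    (up_dim 1 Set.univ fun t ht => ?_)
  have h1 : (Set.univ : Set L) = ⋃ m, ⋃ y ∈ (Finset.univ : Finset (List.Vector Bool m)), {y.1} := by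
    ext ν
    simpa using ⟨ν.length, ⟨ν, rfl⟩, rfl⟩
  rw [h1]
  have k1 : ∀ m, W (lam t) (⋃ y ∈ (Finset.univ : Finset (List.Vector Bool m)), {y.1}) ≤
      (2 * lam t : ℝ≥0∞) ^ m := fun m => by
    refine (measure_biUnion_finset_le _ _).trans ?_
    simp [W_single, mul_pow]
  refine ne_top_of_le_ne_top ?_ ((measure_iUnion_le _).trans (ENNReal.tsum_le_tsum k1))
  rw [ENNReal.tsum_geometric]
  refine ENNReal.inv_ne_top.2 (tsub_pos_of_lt ?_).ne'
  have := lam_lt ht
  rw [lam_one, lt_div_iff₀ two_pos, mul_comm] at this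
  exact_mod_cast this

theorem main (hCH : continuum.{0} = aleph 1) (s : ℝ≥0) (hs : s ≤ 1) :
    ∃ E : Set X, dimH E = s ∧ ∀ f : X → X, Measurable f → dimH (f '' E) ≤ s := by
  rcases eq_or_ne s 0 with rfl | h0
  · exact ⟨∅, by simp, by simp⟩
  have h1 : lam s ≤ 1 := lam_zero ▸ (lam_lt h0.bot_lt).le
  rcases hs.eq_or_lt with rfl | hs
  · refine ⟨Set.univ, (dim_le_one _).antisymm (not_lt.1 fun h => ?_), fun f _ => dim_le_one _⟩
    obtain ⟨T, h2, h3⟩ := low_dim one_pos _ h 1 one_pos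
    obtain ⟨x, -, hx⟩ := cond_ne (σ := []) lam_one.ge h1 (by simpa using h2)
    exact hx (h3 trivial)
  have h2 : 1 / 2 < lam s := lam_one ▸ lam_lt hs
  have : Nonempty {f : X → X | Measurable f} := ⟨⟨id, measurable_id⟩⟩
  obtain ⟨I, _, _, e, he, hI⟩ := Pool.Agent.H.MP_c74059_gt.exists_enum hCH
    ({f : X → X | Measurable f} × (ℕ → Set L)) (by
      rw [mk_prod, lift_id, lift_id]
      refine (mul_le_mul' card_fun le_rfl).trans ?_
      simp)
  choose T h3 h4 using fun u : I => small_image h2 h1 (e u).1.1 (e u).1.2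
  have h5 : ∀ t : I, ∃ x : X, (∀ u ≤ t, ∃ᶠ n in atTop, res ((e u).1.1 x) n ∈ T u) ∧
      ((∀ j : ℕ, W (lam s) ((e t).2 j) < (j : ℝ≥0∞)⁻¹) → ∃ j, x ∉ op ((e t).2 j)) := by
    intro t
    by_contra hc
    have : Countable (Iic t) := by
      rw [← Iio_insert]
      exact ((hI t).insert t).to_subtype
    refine not_sm h2.le h1 (P := cyl [] \ op ∅) ⟨[], ∅, by simp, rfl⟩
      (((sm_iUnion fun u : Iic t => h4 u).union (Nwd.sm (N := {x | (∀ j : ℕ, W (lam s) ((e t).2 j) <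
        (j : ℝ≥0∞)⁻¹) ∧ ∀ j, x ∈ op ((e t).2 j)}) ?_)).mono fun x _ => ?_)
    · rintro _ ⟨σ, S, k1, rfl⟩
      by_cases h : ∀ j : ℕ, W (lam s) ((e t).2 j) < (j : ℝ≥0∞)⁻¹
      · obtain ⟨j, hj⟩ := ENNReal.exists_inv_nat_lt (tsub_pos_of_lt k1).ne'
        refine ⟨_, ⟨σ, S ∪ (e t).2 j, (measure_union_le _ _).trans_lt ?_, rfl⟩, fun x hx => ?_⟩
        · exact lt_tsub_iff_left.1 ((h j).trans hj)
        · rw [op_union] at hx
          exact ⟨⟨hx.1, fun h => hx.2 (Or.inl h)⟩, fun h => hx.2 (Or.inr (h.2 j))⟩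
      · exact ⟨_, ⟨σ, S, k1, rfl⟩, fun x hx => ⟨hx, fun h' => h h'.1⟩⟩
    · by_contra h
      simp only [mem_union, mem_iUnion, mem_ofPred_eq, not_or, not_exists, not_not, not_and,
        not_forall] at h
      exact hc ⟨x, fun u hu => h.1 ⟨u, hu⟩, h.2⟩
  choose x h6 h7 using h5
  have h8 : ∀ f : X → X, Measurable f → dimH (f '' range x) ≤ s := by
    intro f hf
    obtain ⟨u, hu⟩ := he (⟨f, hf⟩, fun _ => ∅)
    refine le_trans (dimH_mono (t := {x : X | ∃ᶠ n in atTop, res x n ∈ T u} ∪ (f ∘ x) '' Iio u) ?_) ?_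
    · rintro _ ⟨_, ⟨t, rfl⟩, rfl⟩
      rcases le_or_gt u t with h | h
      · exact Or.inl (by simpa only [hu, mem_ofPred_eq] using h6 t u h)
      · exact Or.inr ⟨t, h, rfl⟩
    · rw [dimH_union, ((hI u).image _).dimH_zero]
      exact max_le (up_dim s _ fun t ht => h3 u _ (lam_lt ht)) zero_le
  refine ⟨range x, le_antisymm (by simpa using h8 id measurable_id) (not_lt.1 fun h => ?_), h8⟩
  choose S k1 k2 using fun j : ℕ => low_dim h0.bot_lt _ h (j : ℝ≥0∞)⁻¹ (by simp)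
  obtain ⟨t, ht⟩ := he (⟨id, measurable_id⟩, S)
  obtain ⟨j, hj⟩ := h7 t (by simpa only [ht] using k1)
  rw [ht] at hj
  exact hj (k2 j ⟨t, rfl⟩)

end Pool.Agent.H.MP_d9d12d_lc
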